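import Pool.Agent.Run7.h260.VU.Iface

/-!
# The main theorem for `n + |m|` large (piece P16 of the project VU)
-/

set_option autoImplicit false

namespace Run7.h743.VU

open Filter Topology Metric Function Finset
open Run7.h260.VC Run7.h260.VX Run7.h260.VU
open GapVol (lob)
open Pool.Agent.TH563.CV (rog)
open Pool.Agent.W719.AX (UX EXY)
open scoped Real

theorem t_P16 : S_P16 := by
  intro hnear h15
  have hpi := Real.pi_pos
  have hpiC : (π : ℂ) ≠ 0 := by exact_mod_cast hpi.ne'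
  obtain ⟨C, M, hC, hM, H⟩ := h15
  obtain ⟨r, hr, hgeo⟩ := Metric.eventually_nhds_iff_ball.1 (hnear.and (S2_eq 1))
  refine ⟨2 * π * C, max M (C / r + 1), by positivity, lt_of_lt_of_le hM (le_max_left _ _),
    fun n _ m hm => ?_⟩
  have hmM : M ≤ n + |(m : ℝ)| := (le_max_left _ _).trans hm
  have hm0 : 0 < n + |(m : ℝ)| := lt_of_lt_of_le hM hmM
  obtain ⟨χ, w, -, hχn, hcrit, hval, hw, hE⟩ := H n m hmM
  have hχr : χ ∈ Metric.ball (0 : ℂ) r := by
    rw [mem_ball_zero_iff]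
    refine hχn.trans_lt ?_
    have h1 : C / r + 1 ≤ n + |(m : ℝ)| := (le_max_right _ _).trans hm
    have h2 : C / r < n + |(m : ℝ)| := by linarith
    rw [div_lt_iff₀ hr] at h2
    rw [div_lt_iff₀ hm0]
    linarith
  obtain ⟨hNall, hS⟩ := hgeo χ hχr
  have hN := hNall n
  have hu := hN.hu m hcrit
  have hχ : fb χ - fc χ = χ / π := by
    rw [fb, fc]
    field_simp
    ring
  have hv := hN.shp.value hχ hu
  have hre : 2 * π * (vv n m χ).re = volC n (alt (tB (fc χ) (fu χ)) (tB (fc χ) (-fu χ)))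
      (alt (tA (fa χ) (fu χ)) (tA (fa χ) (-fu χ))) (alt (tB (fb χ) (fu χ)) (tB (fb χ) (-fu χ)))
      (alt (tB (fb χ) (fu χ)) (tB (fb χ) (-fu χ))) (alt (tB (fc χ) (fu χ)) (tB (fc χ) (-fu χ)))
      (alt (tA (fa χ) (fu χ)) (tA (fa χ) (-fu χ))) := by
    rw [hN.shp.volC_eq hN.pos hN.pos' n, ← hv]
    unfold vv
    rw [hN.hG]
    congr 2
  refine ⟨_, _, _, _, _, _, hN.shp.angC hN.pos hN.pos' hχ hu,
    fun a b c a' b' c' h => hN.shp.max hN.pos hN.pos' hχ hu h, ?_, vv n m χ, w, hre, ?_, hw, hE⟩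
  · rw [← hre]
    have h4 := Complex.abs_re_le_norm (vv n m χ - Gv n 0)
    rw [Complex.sub_re, Gv_zero_re] at h4
    have h5 := h4.trans hval
    have e : 2 * π * (vv n m χ).re - 12 * n * lob (π / 3) = 2 * π * ((vv n m χ).re - G0 n) := by
      unfold G0
      field_simp
      ring
    rw [e, abs_mul, abs_of_pos (by positivity)]
    refine (mul_le_mul_of_nonneg_left h5 (by positivity)).trans (le_of_eq ?_)
    ring
  · rw [cs_eq hN.shp hN.pos hN.pos' n]
    have hS' : rog (Complex.exp (lA (fa χ) (fu χ))) + rog (Complex.exp (lA (fa χ) (-fu χ))) = R2 χ := hS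
    rw [hS']
    unfold R2 vv
    rw [hN.hG, hχ]
    have h6 : (n : ℂ) * fu χ = Complex.I * (m * χ + π) / 2 := by linear_combination hu / 2
    obtain ⟨q, hq⟩ : ∃ q : ℂ, q = χ / π := ⟨_, rfl⟩
    have hq' : χ = π * q := by rw [hq]; field_simp
    have e1 : Complex.I * m * χ ^ 2 / (2 * π) = Complex.I * m * π * q ^ 2 / 2 := by
      rw [hq]; field_simp
    rw [e1, ← hq]
    linear_combination 2 * Complex.I * χ * h6 +
      (Complex.I ^ 2 * m * (χ + π * q) + π) * hq' - π * χ * Complex.I_sq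

end Run7.h743.VU
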