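import Pool.Agent.Run7.h743.VU.P7a
import Pool.Agent.Run7.h260.VU.Iface

set_option autoImplicit false

namespace Run7.h743.VU

/-- piece P7 of the project VU -/
theorem t_P7 : Run7.h260.VU.S_P7 := main

end Run7.h743.VU
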