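import Pool.Agent.Run7.h260.VC.P6

/-!
# The critical point and the critical value near `χ = 0` (piece P7 of the project VU)
-/

set_option autoImplicit false

namespace Run7.h743.VU

open Filter Topology Metric Function Run7.h260.VC
open scoped Real

theorem Gv_mul (n : ℕ) [NeZero n] (χ : ℂ) : Gv n χ = n * Gv 1 χ := by
  have key : ∀ (k : ℕ) [NeZero k], Gv k χ =
      k * qt (1 / 3 + bet χ) (1 / 3 + bet χ) (1 / 3 + bet χ) (χ / (2 * π)) := by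
    intro k _
    unfold Gv Qp
    rw [Finset.sum_congr rfl fun r _ => by rw [Av_Up, Av_Up, Bv_Up, Xv_Up]]
    simp
  rw [key n, key 1]
  push_cast
  ring

theorem bet_deriv : HasDerivAt bet 0 0 := by
  have h := bet_an.differentiableAt.hasDerivAt
  have h2 : HasDerivAt (fun χ : ℂ => bet (-χ)) (-(deriv bet 0)) 0 := by
    have h3 : HasDerivAt (fun χ : ℂ => -χ) (-1) 0 := hasDerivAt_neg (0 : ℂ)
    have h4 : HasDerivAt bet (deriv bet 0) (-(0 : ℂ)) := by rw [neg_zero]; exact h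
    have h5 := h4.comp (0 : ℂ) h3
    rw [mul_neg_one] at h5
    exact h5
  have h3 : HasDerivAt bet (-(deriv bet 0)) 0 := by
    refine h2.congr_of_eventuallyEq ?_
    filter_upwards [bet_even] with χ hχ
    exact hχ.symm
  have h4 : deriv bet 0 = 0 := by
    have := h.unique h3
    linear_combination this / 2
  rw [h4] at h
  exact h

theorem bet_bigO : ∃ C : ℝ, 0 < C ∧ ∀ᶠ χ : ℂ in 𝓝 0, ‖bet χ‖ ≤ C * ‖χ‖ ^ 2 := by
  obtain ⟨p, hp⟩ := bet_an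
  have h1 := hp.isBigO_sub_partialSum_pow 2
  obtain ⟨C, hC, h2⟩ := h1.exists_pos
  refine ⟨C, hC, ?_⟩
  filter_upwards [h2.bound] with χ h
  have e0 : p.partialSum 2 χ = 0 := by
    rw [FormalMultilinearSeries.partialSum, Finset.sum_range_succ, Finset.sum_range_one,
      p.apply_eq_pow_smul_coeff, p.apply_eq_pow_smul_coeff]
    have c0 : p.coeff 0 = 0 := by
      rw [FormalMultilinearSeries.coeff]
      rw [hp.coeff_zero]
      exact bet_zero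
    have c1 : p.coeff 1 = 0 := by
      have := hp.hasDerivAt.unique bet_deriv
      rw [FormalMultilinearSeries.coeff]
      exact this
    rw [c0, c1]
    simp
  rw [zero_add, e0, sub_zero] at h
  rwa [Real.norm_of_nonneg (by positivity)] at h

theorem main : (∀ (n : ℕ) [NeZero n] (χ : ℂ), Gv n χ = n * Gv 1 χ) ∧
  ∃ δ C : ℝ, 0 < δ ∧ δ ≤ 1 / 1000000 ∧ 0 < C ∧ ∀ χ : ℂ, ‖χ‖ ≤ δ → ‖bet χ‖ ≤ C * ‖χ‖ ^ 2 ∧
    ‖bet χ‖ ≤ 1 / 1000000 ∧ Dd (bet χ) χ = 0 ∧ AnalyticAt ℂ bet χ ∧ bet (-χ) = bet χ ∧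
    AnalyticAt ℂ (Gv 1) χ ∧ Gv 1 (-χ) = Gv 1 χ ∧
    HasDerivAt (Gv 1) (-(1 / π) * (ls (1 / 3 + bet χ + χ / (2 * π)) -
      ls (1 / 3 + bet χ - χ / (2 * π)))) χ := by
  refine ⟨fun n _ χ => Gv_mul n χ, ?_⟩
  obtain ⟨C, hC, h1⟩ := bet_bigO
  have h2 : ∀ᶠ χ : ℂ in 𝓝 0, ‖bet χ‖ ≤ 1 / 1000000 := by
    have : ∀ᶠ z : ℂ in 𝓝 0, ‖z‖ < 1 / 1000000 := by
      have := Metric.ball_mem_nhds (0 : ℂ) (show (0 : ℝ) < 1 / 1000000 by norm_num)
      filter_upwards [this] with z hz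
      simpa using hz
    filter_upwards [bet_tend.eventually this] with χ h
    exact h.le
  have hall : ∀ᶠ χ : ℂ in 𝓝 0, ‖bet χ‖ ≤ C * ‖χ‖ ^ 2 ∧
    ‖bet χ‖ ≤ 1 / 1000000 ∧ Dd (bet χ) χ = 0 ∧ AnalyticAt ℂ bet χ ∧ bet (-χ) = bet χ ∧
    AnalyticAt ℂ (Gv 1) χ ∧ Gv 1 (-χ) = Gv 1 χ ∧
    HasDerivAt (Gv 1) (-(1 / π) * (ls (1 / 3 + bet χ + χ / (2 * π)) -
      ls (1 / 3 + bet χ - χ / (2 * π)))) χ := by
    filter_upwards [h1, h2, bet_crit, bet_an.eventually_analyticAt, bet_even,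
      (Gv_an (n := 1)).eventually_analyticAt, Gv_even (n := 1), Gv_deriv (n := 1)]
      with χ a1 a2 a3 a4 a5 a6 a7 a8
    rw [Nat.cast_one] at a8
    exact ⟨a1, a2, a3, a4, a5, a6, a7, a8⟩
  obtain ⟨δ, hδ, h3⟩ := Metric.nhds_basis_closedBall.eventually_iff.mp hall
  refine ⟨min δ (1 / 1000000), C, lt_min hδ (by norm_num), min_le_right _ _, hC, fun χ hχ => ?_⟩
  exact h3 (by
    rw [Metric.mem_closedBall, dist_zero_right]
    exact hχ.trans (min_le_left _ _))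

end Run7.h743.VU
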